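import Mathlib

/-!
# GCNF and resolution: definitions
-/

set_option autoImplicit false

namespace Pool.Agent.H26.GC

open Finset

/-- A literal: a variable with a sign (`true`: the variable, `false`: its negation). -/
abbrev Lit (V : Type) := V × Bool

/-- The complementary literal. -/
def neg {V : Type} (l : Lit V) : Lit V := (l.1, !l.2)

/-- A clause: a finite set of literals. -/
abbrev Clause (V : Type) := Finset (Lit V)

/-- A cedent: a finite set of clauses. -/
abbrev Cedent (V : Type) := Finset (Clause V)

variable {V : Type} [DecidableEq V]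

/-- `Δ` is an initial cedent of GCNF or follows by one rule of GCNF (structural rule, logical rule
with at least one clause `C_i`) from members of `P`. -/
def Step (P : Set (Cedent V)) (Δ : Cedent V) : Prop :=
  (∃ l : Lit V, Δ = {{l}, {neg l}}) ∨
  (∃ Γ ∈ P, Γ ⊆ Δ) ∨
  (∃ (l : Lit V) (Γ Θ Ξ : Cedent V), Θ.Nonempty ∧ Γ ∪ Θ ∈ P ∧ Ξ ∪ {{l}} ∈ P ∧
    Δ = Γ ∪ Ξ ∪ Θ.image (insert l))

/-- A sequence of cedents, each of which is initial or follows from earlier ones (or from members
of `P`). -/
def Deriv (P : Set (Cedent V)) : List (Cedent V) → Prop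
  | [] => True
  | Δ :: π => Step P Δ ∧ Deriv (insert Δ P) π

/-- A (dag) GCNF refutation of `Γ`: a sequence of cedents ending with `Γ`, each initial or obtained
from earlier lines by a rule. The permutation rule is not used. -/
def GRef (Γ : Cedent V) (π : List (Cedent V)) : Prop :=
  Deriv ∅ π ∧ π.getLast? = some Γ

/-- The number of symbols of a cedent: for each clause its literals and one separator. -/
def csize (Γ : Cedent V) : ℕ := ∑ C ∈ Γ, (C.card + 1)

/-- The number of symbols of a sequence of cedents. -/
def gsize (π : List (Cedent V)) : ℕ := (π.map fun Γ => csize Γ + 1).sum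

/-- A resolution refutation of `Γ` with `s` clauses. -/
structure RRef (Γ : Cedent V) (s : ℕ) where
  /-- the clauses -/
  D : Fin s → Clause V
  /-- a height function -/
  h : Fin s → ℕ
  ok : ∀ i, D i ∈ Γ ∨ ∃ (a b : Fin s) (x : Lit V) (C E : Clause V),
    h a < h i ∧ h b < h i ∧ D a = insert x C ∧ D b = insert (neg x) E ∧ D i = C ∪ E
  /-- the last clause -/
  r : Fin s
  last : D r = ∅

end Pool.Agent.H26.GC
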