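import Pool.Agent.H26.GC.Sim

/-!
# Quasi-polynomial simulation of resolution by GCNF
-/

set_option autoImplicit false
set_option linter.unusedSectionVars false

namespace Pool.Agent.H26.GC

open Finset

variable {V : Type} [DecidableEq V]

/-- The lines without the empty clause form a derivation. -/
theorem Deriv.noEmpty {P : Set (Cedent V)} {π : List (Cedent V)} (h : Deriv P π) :
    Deriv {Δ | Δ ∈ P ∧ (∅ : Clause V) ∉ Δ} (π.filter fun Δ => (∅ : Clause V) ∉ Δ) := by
  induction π generalizing P with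
  | nil => trivial
  | cons Δ π ih =>
    have h2 := ih h.2
    by_cases hΔ : (∅ : Clause V) ∈ Δ
    · rw [List.filter_cons_of_neg (by simpa using hΔ)]
      refine h2.mono ?_
      rintro Δ' ⟨h3, h4⟩
      rcases h3 with rfl | h3
      · exact absurd hΔ h4
      · exact ⟨h3, h4⟩
    · rw [List.filter_cons_of_pos (by simpa using hΔ)]
      refine ⟨?_, h2.mono ?_⟩
      · rcases h.1 with h3 | ⟨Γ, h3, h4⟩ | ⟨l, Γ, Θ, Ξ, h0, h3, h4, h5⟩
        · exact Or.inl h3
        · exact Or.inr (Or.inl ⟨Γ, ⟨h3, fun h5 => hΔ (h4 h5)⟩, h4⟩)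
        · have hΓ : (∅ : Clause V) ∉ Γ := fun h6 => hΔ (by
            rw [h5]; exact mem_union_left _ (mem_union_left _ h6))
          have hΞ : (∅ : Clause V) ∉ Ξ ∪ {{l}} := by
            intro h6
            rcases mem_union.mp h6 with h7 | h7
            · exact hΔ (by rw [h5]; exact mem_union_left _ (mem_union_right _ h7))
            · exact absurd (mem_singleton.mp h7).symm (singleton_ne_empty l)
          by_cases hΘ : (∅ : Clause V) ∈ Θ
          · refine Or.inr (Or.inl ⟨Ξ ∪ {{l}}, ⟨h4, hΞ⟩, ?_⟩)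
            rw [h5]
            intro C hC
            rcases mem_union.mp hC with h7 | h7
            · exact mem_union_left _ (mem_union_right _ h7)
            · rw [mem_singleton.mp h7]
              refine mem_union_right _ (mem_image.mpr ⟨∅, hΘ, ?_⟩)
              rfl
          · refine Or.inr (Or.inr ⟨l, Γ, Θ, Ξ, h0, ⟨h3, ?_⟩, ⟨h4, hΞ⟩, h5⟩)
            intro h6
            rcases mem_union.mp h6 with h7 | h7
            · exact hΓ h7
            · exact hΘ h7
      · rintro Δ' ⟨h3, h4⟩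
        rcases h3 with rfl | h3
        · exact Or.inl rfl
        · exact Or.inr ⟨h3, h4⟩

theorem csize_le {B m : ℕ} {Δ : Cedent V} (h : Small B m Δ) : csize Δ ≤ B * (m + 1) := by
  unfold csize
  calc ∑ C ∈ Δ, (C.card + 1) ≤ ∑ _C ∈ Δ, (m + 1) :=
        sum_le_sum fun C hC => Nat.add_le_add_right (h.2 C hC) 1
    _ = Δ.card * (m + 1) := by rw [sum_const, smul_eq_mul]
    _ ≤ B * (m + 1) := Nat.mul_le_mul_right _ h.1

theorem gsize_le {B m : ℕ} {π : List (Cedent V)} (h : ∀ Δ ∈ π, Small B m Δ) :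
    gsize π ≤ π.length * (B * (m + 1) + 1) := by
  unfold gsize
  induction π with
  | nil => simp
  | cons Δ π ih =>
    rw [List.map_cons, List.sum_cons, List.length_cons, add_mul, one_mul]
    have h1 := csize_le (h Δ (by simp))
    have h2 := ih fun Δ' hΔ' => h Δ' (by simp [hΔ'])
    omega

/-- The simulation. -/
theorem sim (Γ : Cedent V) (hΓ : (∅ : Clause V) ∉ Γ) {s d : ℕ} (ρ : RRef Γ s)
    (hd : ∀ i, ρ.h i < d) (m : ℕ) (hm1 : 1 ≤ m) (hm : ∀ C ∈ Γ, C.card ≤ m) :
    ∃ π : List (Cedent V), GRef Γ π ∧ π.length ≤ 4 * (s + 1) ^ Nat.clog 2 d + 1 ∧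
      ∀ Δ ∈ π, Small ((s + 1) ^ Nat.clog 2 d * Γ.card + 2) m Δ := by
  obtain ⟨π, h1, h2, h3, h4⟩ := block Γ ρ m hm1 hm (Nat.clog 2 d) ρ.r ∅ ∅ {{∅}} (fun _ => ∅)
    (by rw [ρ.last]) subset_rfl (fun w p hp => absurd hp (notMem_empty p)) (by
      intro w hw
      have h5 := hd ρ.r
      have h6 := Nat.le_pow_clog (b := 2) (by norm_num) d
      omega) rfl
  have hln : ced (ln Γ (fun _ : Fin s => (∅ : Finset (Clause V × Clause V))) ∅) = Γ := by
    have e1 : ln Γ (fun _ : Fin s => (∅ : Finset (Clause V × Clause V))) ∅ = gk Γ ∅ := by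
      unfold ln
      ext p
      simp [rs]
    rw [e1]
    ext C
    simp [ced, gk]
  rw [hln] at h4
  have hG : Small ((s + 1) ^ Nat.clog 2 d * Γ.card + 2) m Γ := by
    refine ⟨?_, hm⟩
    have : Γ.card ≤ (s + 1) ^ Nat.clog 2 d * Γ.card :=
      Nat.le_mul_of_pos_left _ (Nat.pow_pos (Nat.succ_pos s))
    omega
  have h5 := h1.noEmpty
  have hΓ' : Γ ∈ π.filter fun Δ => (∅ : Clause V) ∉ Δ := by
    rw [List.mem_filter]
    exact ⟨h4, by simpa using hΓ⟩
  refine ⟨(π.filter fun Δ => (∅ : Clause V) ∉ Δ) ++ [Γ], ⟨?_, by simp⟩, ?_, ?_⟩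
  · refine Deriv.append (h5.mono ?_) ⟨Or.inr (Or.inl ⟨Γ, Or.inr hΓ', subset_rfl⟩), trivial⟩
    rintro Δ ⟨h6, h7⟩
    rw [Set.mem_singleton_iff.mp h6] at h7
    exact absurd (mem_singleton_self _) h7
  · rw [List.length_append, List.length_singleton]
    have := List.length_filter_le (fun Δ : Cedent V => decide ((∅ : Clause V) ∉ Δ)) π
    omega
  · intro Δ hΔ
    rcases List.mem_append.mp hΔ with h6 | h6
    · have h7 := h3 Δ (List.mem_of_mem_filter h6)
      simpa using h7
    · rw [List.mem_singleton.mp h6]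
      exact hG

theorem csize_card (Γ : Cedent V) : Γ.card ≤ csize Γ := by
  unfold csize
  rw [card_eq_sum_ones]
  exact sum_le_sum fun C _ => by omega

theorem card_le_csize {Γ : Cedent V} {C : Clause V} (hC : C ∈ Γ) : C.card + 1 ≤ csize Γ :=
  single_le_sum (f := fun C : Clause V => C.card + 1) (fun _ _ => Nat.zero_le _) hC

/-- The simulation, with the total size. -/
theorem sim_size (Γ : Cedent V) (hΓ : (∅ : Clause V) ∉ Γ) {s d : ℕ} (ρ : RRef Γ s)
    (hd : ∀ i, ρ.h i < d) :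
    ∃ π : List (Cedent V), GRef Γ π ∧ π.length ≤ 4 * (s + 1) ^ Nat.clog 2 d + 1 ∧
      gsize π ≤ 20 * (s + 1) ^ (2 * Nat.clog 2 d) * csize Γ ^ 2 := by
  -- `Γ` has a clause, and it is not empty
  have hne : ∃ C ∈ Γ, 1 ≤ C.card := by
    by_contra hcon
    push Not at hcon
    have hΓ0 : Γ = ∅ := by
      rw [eq_empty_iff_forall_notMem]
      intro C hC
      have h1 := hcon C hC
      have h2 : C = ∅ := card_eq_zero.mp (by omega)
      exact hΓ (h2 ▸ hC)
    -- no clause is derivable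
    have h1 : ∀ (n : ℕ) (i : Fin s), ρ.h i = n → False := by
      intro n
      induction n using Nat.strong_induction_on with
      | _ n ih =>
        intro i hi
        rcases ρ.ok i with h | ⟨a, b, x, C, E, ha, -⟩
        · exact absurd ((Finset.ext_iff.mp hΓ0 (ρ.D i)).mp h) (notMem_empty _)
        · exact ih (ρ.h a) (by omega) a rfl
    exact h1 _ ρ.r rfl
  obtain ⟨C₀, hC₀, hC₁⟩ := hne
  set N := csize Γ with hN
  have hN2 : 2 ≤ N := by have := card_le_csize hC₀; omega
  obtain ⟨π, h1, h2, h3⟩ := sim Γ hΓ ρ hd (N - 1) (by omega) (by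
    intro C hC
    have := card_le_csize hC
    omega)
  refine ⟨π, h1, h2, ?_⟩
  have h4 := gsize_le h3
  have e1 : N - 1 + 1 = N := by omega
  rw [e1] at h4
  set q := (s + 1) ^ Nat.clog 2 d with hq
  have hq1 : 1 ≤ q := Nat.pow_pos (Nat.succ_pos s)
  have hg := csize_card Γ
  have e2 : (s + 1) ^ (2 * Nat.clog 2 d) = q ^ 2 := by rw [hq, ← pow_mul, mul_comm]
  rw [e2]
  have h5 : π.length * ((q * Γ.card + 2) * N + 1) ≤ (4 * q + 1) * ((q * Γ.card + 2) * N + 1) :=
    Nat.mul_le_mul_right _ h2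
  have h6 : (q * Γ.card + 2) * N + 1 ≤ 4 * (q * N * N) := by
    have a1 : q * Γ.card ≤ q * N := Nat.mul_le_mul_left _ hg
    have a2 : 2 ≤ q * N := le_trans hN2 (Nat.le_mul_of_pos_left _ hq1)
    have a3 : (q * Γ.card + 2) * N ≤ (q * N + q * N) * N :=
      Nat.mul_le_mul_right _ (add_le_add a1 a2)
    have a4 : 1 ≤ q * N * N := Nat.mul_pos (Nat.mul_pos hq1 (by omega)) (by omega)
    have a5 : (q * N + q * N) * N = 2 * (q * N * N) := by ring
    omega
  calc gsize π ≤ (4 * q + 1) * ((q * Γ.card + 2) * N + 1) := h4.trans h5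
    _ ≤ (5 * q) * (4 * (q * N * N)) := Nat.mul_le_mul (by omega) h6
    _ = 20 * q ^ 2 * N ^ 2 := by ring

end Pool.Agent.H26.GC
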