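import Pool.Agent.H26.GC.Defs

/-!
# Simulation of resolution by GCNF
-/

set_option autoImplicit false
set_option linter.unusedSectionVars false

namespace Pool.Agent.H26.GC

open Finset

variable {V : Type} [DecidableEq V]

theorem Step.mono {P Q : Set (Cedent V)} (h : P ⊆ Q) {Δ : Cedent V} (hs : Step P Δ) :
    Step Q Δ := by
  rcases hs with h1 | ⟨Γ, h1, h2⟩ | ⟨l, Γ, Θ, Ξ, h0, h1, h2, h3⟩
  · exact Or.inl h1
  · exact Or.inr (Or.inl ⟨Γ, h h1, h2⟩)
  · exact Or.inr (Or.inr ⟨l, Γ, Θ, Ξ, h0, h h1, h h2, h3⟩)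

theorem Deriv.mono {P Q : Set (Cedent V)} (h : P ⊆ Q) {π : List (Cedent V)} (hs : Deriv P π) :
    Deriv Q π := by
  induction π generalizing P Q with
  | nil => trivial
  | cons Δ π ih => exact ⟨hs.1.mono h, ih (Set.insert_subset_insert h) hs.2⟩

theorem Deriv.append {P : Set (Cedent V)} {π₁ π₂ : List (Cedent V)} (h1 : Deriv P π₁)
    (h2 : Deriv (P ∪ {Δ | Δ ∈ π₁}) π₂) : Deriv P (π₁ ++ π₂) := by
  induction π₁ generalizing P with
  | nil =>
    refine h2.mono ?_
    intro x hx
    simpa using hx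
  | cons Δ π ih =>
    refine ⟨h1.1, ih h1.2 (h2.mono ?_)⟩
    intro x hx
    simp only [Set.mem_union, Set.mem_ofPred_eq, List.mem_cons, Set.mem_insert_iff] at hx ⊢
    tauto

/-- The cedent of a set of pairs `(C, A)`: the clauses `C \ A`. -/
def ced (S : Finset (Clause V × Clause V)) : Cedent V := S.image fun p => p.1 \ p.2

/-- Keep only the deletions in `K`. -/
def rs (K : Clause V) (S : Finset (Clause V × Clause V)) : Finset (Clause V × Clause V) :=
  S.image fun p => (p.1, p.2 ∩ K)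

/-- The clauses of `Γ`, with the literals in `K` deleted. -/
def gk (Γ : Cedent V) (K : Clause V) : Finset (Clause V × Clause V) :=
  Γ.image fun C => (C, C ∩ K)

theorem ced_union (S T : Finset (Clause V × Clause V)) : ced (S ∪ T) = ced S ∪ ced T :=
  image_union S T

theorem ced_mono {S T : Finset (Clause V × Clause V)} (h : S ⊆ T) : ced S ⊆ ced T :=
  image_subset_image h

/-- One application of the logical rule restores the literal `x`. -/
theorem step_one (P : Set (Cedent V)) (S : Finset (Clause V × Clause V)) (K : Clause V)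
    (x : Lit V) (Ξ : Cedent V) (hS : ∀ p ∈ S, p.2 ⊆ p.1 ∧ p.2 ⊆ insert x K)
    (h1 : ced S ∈ P) (h2 : Ξ ∪ {{x}} ∈ P) : Step P (ced (rs K S) ∪ Ξ) := by
  classical
  have key1 : ∀ p ∈ S, (x ∈ p.2 ∧ x ∉ K) → p.1 \ (p.2 ∩ K) = insert x (p.1 \ p.2) := by
    intro p hp hx
    obtain ⟨ha, hb⟩ := hS p hp
    ext y
    simp only [mem_sdiff, mem_inter, mem_insert]
    constructor
    · rintro ⟨h3, h4⟩
      by_cases hy : y = x
      · exact Or.inl hy
      · refine Or.inr ⟨h3, fun h5 => h4 ⟨h5, ?_⟩⟩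
        exact (mem_insert.mp (hb h5)).resolve_left hy
    · rintro (h3 | ⟨h3, h4⟩)
      · subst h3
        exact ⟨ha hx.1, fun h5 => hx.2 h5.2⟩
      · exact ⟨h3, fun h5 => h4 h5.1⟩
  have key2 : ∀ p ∈ S, ¬ (x ∈ p.2 ∧ x ∉ K) → p.1 \ (p.2 ∩ K) = p.1 \ p.2 := by
    intro p hp hx
    obtain ⟨ha, hb⟩ := hS p hp
    have h3 : p.2 ⊆ K := by
      intro y hy
      rcases mem_insert.mp (hb hy) with h4 | h4
      · subst h4
        by_contra h5
        exact hx ⟨hy, h5⟩
      · exact h4
    rw [inter_eq_left.mpr h3]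
  set Θ : Cedent V := (S.filter fun p => x ∈ p.2 ∧ x ∉ K).image fun p => p.1 \ p.2 with hΘ
  set Γ₀ : Cedent V := (S.filter fun p => ¬ (x ∈ p.2 ∧ x ∉ K)).image fun p => p.1 \ p.2 with hΓ₀
  have e1 : Γ₀ ∪ Θ = ced S := by
    rw [hΘ, hΓ₀, ← image_union, union_comm, filter_union_filter_not_eq]
    rfl
  have e2 : ced (rs K S) = Γ₀ ∪ Θ.image (insert x) := by
    ext C
    simp only [ced, rs, mem_image, mem_union, hΘ, hΓ₀, mem_filter, exists_exists_and_eq_and]
    constructor
    · rintro ⟨p, hp, rfl⟩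
      by_cases hx : x ∈ p.2 ∧ x ∉ K
      · exact Or.inr ⟨p, ⟨hp, hx⟩, (key1 p hp hx).symm⟩
      · exact Or.inl ⟨p, ⟨hp, hx⟩, (key2 p hp hx).symm⟩
    · rintro (⟨p, ⟨hp, hx⟩, rfl⟩ | ⟨p, ⟨hp, hx⟩, rfl⟩)
      · exact ⟨p, hp, key2 p hp hx⟩
      · exact ⟨p, hp, key1 p hp hx⟩
  rcases Θ.eq_empty_or_nonempty with h0 | h0
  · refine Or.inr (Or.inl ⟨ced S, h1, ?_⟩)
    rw [e2, ← e1, h0]
    intro y hy
    simp only [union_empty, image_empty, mem_union] at hy ⊢
    exact Or.inl hy
  · refine Or.inr (Or.inr ⟨x, Γ₀, Θ, Ξ, h0, by rw [e1]; exact h1, h2, ?_⟩)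
    rw [e2]
    ext y
    simp only [mem_union]
    tauto

theorem rs_gk (Γ : Cedent V) {K K' : Clause V} (h : K ⊆ K') : rs K (gk Γ K') = gk Γ K := by
  rw [rs, gk, gk, image_image]
  refine image_congr ?_
  intro C _
  show (C, (C ∩ K') ∩ K) = (C, C ∩ K)
  rw [inter_assoc, inter_eq_right.mpr h]

theorem rs_rs {K K' : Clause V} (h : K ⊆ K') (S : Finset (Clause V × Clause V)) :
    rs K (rs K' S) = rs K S := by
  rw [rs, rs, rs, image_image]
  refine image_congr ?_
  intro p _
  show (p.1, (p.2 ∩ K') ∩ K) = (p.1, p.2 ∩ K)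
  rw [inter_assoc, inter_eq_right.mpr h]

theorem card_rs (K : Clause V) (S : Finset (Clause V × Clause V)) : (rs K S).card ≤ S.card :=
  card_image_le

theorem card_gk (Γ : Cedent V) (K : Clause V) : (gk Γ K).card ≤ Γ.card := card_image_le

theorem card_ced (S : Finset (Clause V × Clause V)) : (ced S).card ≤ S.card := card_image_le

/-- The line of the simulation. -/
def ln (Γ : Cedent V) {s : ℕ} (S : Fin s → Finset (Clause V × Clause V)) (K : Clause V) :
    Finset (Clause V × Clause V) := gk Γ K ∪ univ.biUnion fun w => rs K (S w)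

theorem card_ln (Γ : Cedent V) {s : ℕ} (S : Fin s → Finset (Clause V × Clause V))
    (K : Clause V) : (ln Γ S K).card ≤ Γ.card + ∑ w, (S w).card := by
  refine (card_union_le _ _).trans (add_le_add (card_gk Γ K) ?_)
  refine card_biUnion_le.trans (sum_le_sum fun w _ => card_rs K (S w))

/-- The pairs `(C, A)` used for a node with label `K`. -/
def OkS (Γ : Cedent V) (K : Clause V) (S : Finset (Clause V × Clause V)) : Prop :=
  ∀ p ∈ S, p.1 ∈ Γ ∧ p.2 ⊆ p.1 ∧ p.2 ⊆ K

theorem OkS.rs {Γ : Cedent V} {K : Clause V} {S : Finset (Clause V × Clause V)}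
    (h : OkS Γ K S) (K' : Clause V) : OkS Γ K' (rs K' S) := by
  intro p hp
  obtain ⟨q, hq, rfl⟩ := mem_image.mp hp
  obtain ⟨h1, h2, h3⟩ := h q hq
  exact ⟨h1, inter_subset_left.trans h2, inter_subset_right⟩

theorem OkS.gk (Γ : Cedent V) (K : Clause V) : OkS Γ K (gk Γ K) := by
  intro p hp
  obtain ⟨C, hC, rfl⟩ := mem_image.mp hp
  exact ⟨hC, inter_subset_left, inter_subset_right⟩

theorem OkS.ln {Γ : Cedent V} {s : ℕ} {S : Fin s → Finset (Clause V × Clause V)}
    {M : Fin s → Clause V} (h : ∀ w, OkS Γ (M w) (S w)) (K : Clause V) : OkS Γ K (ln Γ S K) := by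
  intro p hp
  rcases mem_union.mp hp with h1 | h1
  · exact OkS.gk Γ K p h1
  · obtain ⟨w, -, hw⟩ := mem_biUnion.mp h1
    exact (h w).rs K p hw

/-- A cedent with at most `B` clauses, each of size at most `m`. -/
def Small (B m : ℕ) (Δ : Cedent V) : Prop := Δ.card ≤ B ∧ ∀ C ∈ Δ, C.card ≤ m

theorem small_ced {Γ : Cedent V} {K : Clause V} {S : Finset (Clause V × Clause V)} {B m : ℕ}
    (h : OkS Γ K S) (hm : ∀ C ∈ Γ, C.card ≤ m) (hB : S.card ≤ B) : Small B m (ced S) := by
  refine ⟨(card_ced S).trans hB, ?_⟩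
  intro C hC
  obtain ⟨p, hp, rfl⟩ := mem_image.mp hC
  exact (card_le_card sdiff_subset).trans (hm _ (h p hp).1)

theorem Small.mono {B B' m : ℕ} {Δ : Cedent V} (h : Small B m Δ) (hB : B ≤ B') :
    Small B' m Δ := ⟨h.1.trans hB, h.2⟩

theorem Small.union {B B' m : ℕ} {Δ Δ' : Cedent V} (h : Small B m Δ) (h' : Small B' m Δ') :
    Small (B + B') m (Δ ∪ Δ') := by
  refine ⟨(card_union_le _ _).trans (add_le_add h.1 h'.1), ?_⟩
  intro C hC
  rcases mem_union.mp hC with h1 | h1
  · exact h.2 C h1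
  · exact h'.2 C h1

theorem small_single {m : ℕ} (hm : 1 ≤ m) (l : Lit V) : Small 1 m ({{l}} : Cedent V) := by
  refine ⟨by simp, ?_⟩
  intro C hC
  rw [mem_singleton.mp hC, card_singleton]
  exact hm

/-- The simulation of a block of length `2 ^ j`. -/
theorem block (Γ : Cedent V) {s : ℕ} (ρ : RRef Γ s) (m : ℕ) (hm1 : 1 ≤ m)
    (hm : ∀ C ∈ Γ, C.card ≤ m) (j : ℕ) :
    ∀ (v : Fin s) (K M : Clause V) (P : Set (Cedent V))
      (S : Fin s → Finset (Clause V × Clause V)), ρ.D v ⊆ K → M ⊆ K →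
      (∀ w, OkS Γ (M ∪ ρ.D w) (S w)) → (∀ w, ρ.h w + 2 ^ j ≤ ρ.h v → ced (S w) ∈ P) →
      ({∅} : Cedent V) ∈ P →
      ∃ π : List (Cedent V), Deriv P π ∧ π.length ≤ 4 * (s + 1) ^ j ∧
        (∀ Δ ∈ π, Small ((s + 1) ^ j * (Γ.card + ∑ w, (S w).card) + 2) m Δ) ∧
        ced (ln Γ S K) ∈ π := by
  induction j with
  | zero =>
    intro v K M P S hv hM hS hex hemp
    have hOk := OkS.ln (K := K) hS
    have hsm : Small ((s + 1) ^ 0 * (Γ.card + ∑ w, (S w).card) + 2) m (ced (ln Γ S K)) := by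
      refine small_ced hOk hm ((card_ln Γ S K).trans ?_)
      rw [pow_zero, one_mul]
      omega
    rcases ρ.ok v with h | ⟨a, b, x, C, E, ha, hb, hDa, hDb, hDv⟩
    · refine ⟨[ced (ln Γ S K)], ⟨Or.inr (Or.inl ⟨{∅}, hemp, ?_⟩), trivial⟩, ?_, ?_, by simp⟩
      · rw [singleton_subset_iff]
        refine mem_image.mpr ⟨(ρ.D v, ρ.D v ∩ K), mem_union_left _ (mem_image_of_mem _ h), ?_⟩
        show ρ.D v \ (ρ.D v ∩ K) = ∅
        rw [inter_eq_left.mpr hv, sdiff_self]
        rfl
      · simp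
      · intro Δ hΔ
        rw [List.mem_singleton.mp hΔ]
        exact hsm
    · have hC : C ⊆ K := (by rw [hDv]; exact subset_union_left : C ⊆ ρ.D v).trans hv
      have hE : E ⊆ K := (by rw [hDv]; exact subset_union_right : E ⊆ ρ.D v).trans hv
      have hSa : ∀ p ∈ S a, p.2 ⊆ p.1 ∧ p.2 ⊆ insert x K := by
        intro p hp
        obtain ⟨-, h2, h3⟩ := hS a p hp
        refine ⟨h2, h3.trans ?_⟩
        rw [hDa]
        exact union_subset (hM.trans (subset_insert _ _)) (insert_subset_insert _ hC)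
      have hSb : ∀ p ∈ S b, p.2 ⊆ p.1 ∧ p.2 ⊆ insert (neg x) K := by
        intro p hp
        obtain ⟨-, h2, h3⟩ := hS b p hp
        refine ⟨h2, h3.trans ?_⟩
        rw [hDb]
        exact union_subset (hM.trans (subset_insert _ _)) (insert_subset_insert _ hE)
      have hPa := hex a (by rw [pow_zero]; exact ha)
      have hPb := hex b (by rw [pow_zero]; exact hb)
      set L1 : Cedent V := {{x}, {neg x}} with hL1
      set L2 : Cedent V := ced (rs K (S b)) ∪ {{x}} with hL2
      set L3 : Cedent V := ced (rs K (S a)) ∪ ced (rs K (S b)) with hL3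
      set L4 : Cedent V := ced (ln Γ S K) with hL4
      have hsb : (S b).card ≤ ∑ w, (S w).card :=
        single_le_sum (f := fun w => (S w).card) (fun _ _ => Nat.zero_le _) (mem_univ b)
      have hsmb : Small (∑ w, (S w).card) m (ced (rs K (S b))) :=
        small_ced ((hS b).rs K) hm ((card_rs K (S b)).trans hsb)
      refine ⟨[L1, L2, L3, L4], ⟨?_, ?_, ?_, ?_, trivial⟩, ?_, ?_, by simp⟩
      · exact Or.inl ⟨x, rfl⟩
      · refine step_one _ (S b) K (neg x) {{x}} hSb (Set.mem_insert_of_mem _ hPb) ?_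
        refine Or.inl ?_
        rw [hL1]
        rfl
      · refine step_one _ (S a) K x (ced (rs K (S b))) hSa
          (Set.mem_insert_of_mem _ (Set.mem_insert_of_mem _ hPa)) ?_
        exact Or.inl rfl
      · refine Or.inr (Or.inl ⟨L3, Or.inl rfl, ?_⟩)
        rw [hL3, hL4, ← ced_union]
        refine ced_mono ?_
        refine union_subset ?_ ?_
        · intro p hp
          exact mem_union_right _ (mem_biUnion.mpr ⟨a, mem_univ a, hp⟩)
        · intro p hp
          exact mem_union_right _ (mem_biUnion.mpr ⟨b, mem_univ b, hp⟩)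
      · simp
      · intro Δ hΔ
        simp only [List.mem_cons, List.not_mem_nil, or_false] at hΔ
        rcases hΔ with rfl | rfl | rfl | rfl
        · refine ((small_single hm1 x).union (small_single hm1 (neg x))).mono ?_
          omega
        · refine (hsmb.union (small_single hm1 x)).mono ?_
          rw [pow_zero, one_mul]
          omega
        · have h3 : L3 ⊆ L4 := by
            rw [hL3, hL4, ← ced_union]
            refine ced_mono ?_
            refine union_subset ?_ ?_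
            · intro p hp
              exact mem_union_right _ (mem_biUnion.mpr ⟨a, mem_univ a, hp⟩)
            · intro p hp
              exact mem_union_right _ (mem_biUnion.mpr ⟨b, mem_univ b, hp⟩)
          exact ⟨(card_le_card h3).trans hsm.1, fun C hC => hsm.2 C (h3 hC)⟩
        · exact hsm
  | succ j ih =>
    intro v K M P S hv hM hS hex hemp
    -- the second halves
    have hsec : ∀ u : Fin s, ∃ π : List (Cedent V), Deriv P π ∧ π.length ≤ 4 * (s + 1) ^ j ∧
        (∀ Δ ∈ π, Small ((s + 1) ^ j * (Γ.card + ∑ w, (S w).card) + 2) m Δ) ∧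
        (ρ.h u + 2 ^ j ≤ ρ.h v → ced (ln Γ S (K ∪ ρ.D u)) ∈ π) := by
      intro u
      by_cases hu : ρ.h u + 2 ^ j ≤ ρ.h v
      · obtain ⟨π, h1, h2, h3, h4⟩ := ih u (K ∪ ρ.D u) M P S subset_union_right
          (hM.trans subset_union_left) hS (by
            intro w hw
            refine hex w ?_
            rw [pow_succ]
            omega) hemp
        exact ⟨π, h1, h2, h3, fun _ => h4⟩
      · exact ⟨[], trivial, by simp, by simp, fun h => absurd h hu⟩
    choose πu hu1 hu2 hu3 hu4 using hsec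
    -- concatenation
    have hcat : ∀ l : List (Fin s), ∃ π : List (Cedent V), Deriv P π ∧
        π.length ≤ l.length * (4 * (s + 1) ^ j) ∧
        (∀ Δ ∈ π, Small ((s + 1) ^ j * (Γ.card + ∑ w, (S w).card) + 2) m Δ) ∧
        ∀ u ∈ l, ρ.h u + 2 ^ j ≤ ρ.h v → ced (ln Γ S (K ∪ ρ.D u)) ∈ π := by
      intro l
      induction l with
      | nil => exact ⟨[], trivial, by simp, by simp, by simp⟩
      | cons u l ihl =>
        obtain ⟨π, h1, h2, h3, h4⟩ := ihl
        refine ⟨πu u ++ π, (hu1 u).append (h1.mono Set.subset_union_left), ?_, ?_, ?_⟩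
        · rw [List.length_append, List.length_cons, add_mul, one_mul]
          have := hu2 u
          omega
        · intro Δ hΔ
          rcases List.mem_append.mp hΔ with h5 | h5
          · exact hu3 u Δ h5
          · exact h3 Δ h5
        · intro w hw hw2
          rcases List.mem_cons.mp hw with rfl | h5
          · exact List.mem_append_left _ (hu4 w hw2)
          · exact List.mem_append_right _ (h4 w h5 hw2)
    obtain ⟨π₁, h1, h2, h3, h4⟩ := hcat (List.finRange s)
    rw [List.length_finRange] at h2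
    -- the first half
    obtain ⟨π₂, g1, g2, g3, g4⟩ := ih v K K (P ∪ {Δ | Δ ∈ π₁}) (fun u => ln Γ S (K ∪ ρ.D u)) hv
      subset_rfl (fun u => OkS.ln hS (K ∪ ρ.D u)) (by
        intro u hu
        exact Or.inr (h4 u (List.mem_finRange u) hu)) (Or.inl hemp)
    have hln : ln Γ (fun u => ln Γ S (K ∪ ρ.D u)) K = ln Γ S K := by
      have e1 : ∀ u, rs K (ln Γ S (K ∪ ρ.D u)) = ln Γ S K := by
        intro u
        rw [ln, rs, image_union, biUnion_image]
        show rs K (gk Γ (K ∪ ρ.D u)) ∪ univ.biUnion (fun w => rs K (rs (K ∪ ρ.D u) (S w))) = _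
        rw [rs_gk Γ subset_union_left, ln]
        congr 1
        refine biUnion_congr rfl ?_
        intro w _
        rw [rs_rs subset_union_left]
      show gk Γ K ∪ univ.biUnion (fun u => rs K (ln Γ S (K ∪ ρ.D u))) = ln Γ S K
      ext p
      simp only [mem_union, mem_biUnion, mem_univ, true_and, e1]
      constructor
      · rintro (h5 | ⟨-, h5⟩)
        · exact mem_union_left _ h5
        · exact h5
      · intro h5
        exact Or.inr ⟨v, h5⟩
    rw [hln] at g4
    have hbd : ∑ u : Fin s, (ln Γ S (K ∪ ρ.D u)).card ≤ s * (Γ.card + ∑ w, (S w).card) := by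
      refine (sum_le_sum fun u _ => card_ln Γ S (K ∪ ρ.D u)).trans ?_
      simp
    refine ⟨π₁ ++ π₂, h1.append g1, ?_, ?_, List.mem_append_right _ g4⟩
    · rw [List.length_append, pow_succ]
      calc π₁.length + π₂.length ≤ s * (4 * (s + 1) ^ j) + 4 * (s + 1) ^ j := add_le_add h2 g2
        _ = 4 * ((s + 1) ^ j * (s + 1)) := by ring
    · intro Δ hΔ
      rcases List.mem_append.mp hΔ with h5 | h5
      · refine (h3 Δ h5).mono ?_
        rw [pow_succ]
        have : (s + 1) ^ j * (Γ.card + ∑ w, (S w).card) ≤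
            (s + 1) ^ j * (s + 1) * (Γ.card + ∑ w, (S w).card) :=
          Nat.mul_le_mul_right _ (Nat.le_mul_of_pos_right _ (Nat.succ_pos s))
        omega
      · refine (g3 Δ h5).mono ?_
        have : (s + 1) ^ j * (Γ.card + ∑ u : Fin s, (ln Γ S (K ∪ ρ.D u)).card) ≤
            (s + 1) ^ (j + 1) * (Γ.card + ∑ w, (S w).card) := by
          calc (s + 1) ^ j * (Γ.card + ∑ u : Fin s, (ln Γ S (K ∪ ρ.D u)).card)
              ≤ (s + 1) ^ j * (Γ.card + s * (Γ.card + ∑ w, (S w).card)) :=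
                Nat.mul_le_mul_left _ (Nat.add_le_add_left hbd _)
            _ ≤ (s + 1) ^ j * ((Γ.card + ∑ w, (S w).card) + s * (Γ.card + ∑ w, (S w).card)) :=
                Nat.mul_le_mul_left _ (Nat.add_le_add_right (Nat.le_add_right _ _) _)
            _ = (s + 1) ^ (j + 1) * (Γ.card + ∑ w, (S w).card) := by ring
        omega

end Pool.Agent.H26.GC
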